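import Pool.Agent.TH761.EA.Shift

/-!
# Edwards-Anderson ground states on `ℤ × G`

`G` is an arbitrary finite connected multigraph, with vertex set `V` and edge set `I`; the edge `i`
joins `s i` and `t i`. The sites of `ℤ × G` are the pairs `(n, x)`, and its bonds are
`(n, Sum.inl x)`, which joins `(n, x)` and `(n + 1, x)`, and `(n, Sum.inr i)`, which joins `(n, s i)`
and `(n, t i)`. (For `G = (ℤ/L)^(d-1)` or `G = {-w, ..., w}^(d-1)`: the doubly infinite cylinders and
tubes in dimension `d`.)
-/

set_option autoImplicit false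

open MeasureTheory

namespace Pool.Agent.Results.MP_37ff18_mp.Cylinders

variable {V I : Type} [Fintype V] [Fintype I]

/-- the product of the two spins at the ends of a bond -/
def bond (s t : I → V) (σ : ℤ × V → ℝ) : ℤ × (V ⊕ I) → ℝ
  | (n, Sum.inl x) => σ (n, x) * σ (n + 1, x)
  | (n, Sum.inr i) => σ (n, s i) * σ (n, t i)

/-- a spin configuration -/
def IsConfiguration (σ : ℤ × V → ℝ) : Prop := ∀ v, σ v = 1 ∨ σ v = -1

/-- `σ` is an infinite-volume ground state for the couplings `J`: every change at finitely many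
sites (at least one) increases the energy `- ∑ J e σ σ`. -/
def IsGroundState (s t : I → V) (J : ℤ × (V ⊕ I) → ℝ) (σ : ℤ × V → ℝ) : Prop :=
  IsConfiguration σ ∧ ∀ ρ : ℤ × V → ℝ, IsConfiguration ρ → {v | ρ v ≠ σ v}.Finite → ρ ≠ σ →
    0 < ∑ᶠ e, J e * (bond s t σ e - bond s t ρ e)

/-- the multigraph with vertex set `V` and edges `i : I` with ends `s i`, `t i` is connected -/
def Connected (s t : I → V) : Prop :=
  ∀ x y : V, Relation.EqvGen (fun a b => ∃ i, s i = a ∧ t i = b) x y

open Pool.Agent.TH761.EA in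
theorem bond_eq (s t : I → V) (σ : ℤ × V → ℝ) (e : ℤ × (V ⊕ I)) :
    bond s t σ e = bd s t σ e := by
  obtain ⟨n, x | i⟩ := e <;> rfl

open Pool.Agent.TH761.EA in
theorem energy_eq (s t : I → V) (J : ℤ × (V ⊕ I) → ℝ) (σ ρ : ℤ × V → ℝ) (p q : ℤ)
    (h : ∀ n x, n ≤ p ∨ q ≤ n → ρ (n, x) = σ (n, x)) :
    ∑ᶠ e, J e * (bond s t σ e - bond s t ρ e) = S s t J σ p q - S s t J ρ p q := by
  classical
  rw [finsum_eq_sum_of_support_subset (s := Finset.Ico p q ×ˢ
    (Finset.univ : Finset (V ⊕ I)))]
  · unfold S en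
    rw [Finset.sum_product, ← Finset.sum_sub_distrib]
    refine Finset.sum_congr rfl fun n _ => ?_
    rw [← Finset.sum_sub_distrib]
    refine Finset.sum_congr rfl fun c _ => ?_
    rw [bond_eq, bond_eq]
    ring
  · rintro ⟨n, c⟩ he
    rw [Function.mem_support] at he
    rw [Finset.mem_coe, Finset.mem_product, Finset.mem_Ico]
    refine ⟨?_, Finset.mem_univ _⟩
    by_contra hc
    apply he
    have hn : n < p ∨ q ≤ n := by
      simp only [not_and_or, not_le, not_lt] at hc
      exact hc
    have e1 : bond s t ρ (n, c) = bond s t σ (n, c) := by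
      obtain x | i := c
      · simp only [bond]
        rw [h n x (by omega), h (n + 1) x (by omega)]
      · simp only [bond]
        rw [h n _ (by omega), h n _ (by omega)]
    rw [e1, sub_self, mul_zero]

open Pool.Agent.TH761.EA in
theorem ground_iff (s t : I → V) (J : ℤ × (V ⊕ I) → ℝ) (σ : ℤ × V → ℝ) :
    IsGroundState s t J σ ↔ Gr s t J σ := by
  classical
  constructor
  · rintro ⟨h1, h2⟩
    refine ⟨h1, fun p q ρ hρ hb hne => ?_⟩
    have hfin : {v | ρ v ≠ σ v}.Finite := by
      refine (Finset.finite_toSet (Finset.Ioo p q ×ˢ (Finset.univ : Finset V))).subset ?_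
      rintro ⟨n, x⟩ hv
      rw [Finset.mem_coe, Finset.mem_product, Finset.mem_Ioo]
      refine ⟨?_, Finset.mem_univ _⟩
      by_contra hc
      exact hv (hb n x (by omega))
    have h3 := h2 ρ hρ hfin hne
    rw [energy_eq s t J σ ρ p q hb] at h3
    linarith
  · rintro ⟨h1, h2⟩
    refine ⟨h1, fun ρ hρ hfin hne => ?_⟩
    obtain ⟨q, hq⟩ : ∃ q : ℤ, ∀ v : ℤ × V, ρ v ≠ σ v → v.1 < q ∧ -q < v.1 := by
      obtain ⟨b, hb⟩ := (hfin.image (fun v : ℤ × V => |v.1|)).bddAbove
      refine ⟨b + 1, fun v hv => ?_⟩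
      have h3 := hb ⟨v, hv, rfl⟩
      simp only at h3
      have h4 := abs_le.1 h3
      constructor <;> omega
    have hb : ∀ n x, n ≤ -q ∨ q ≤ n → ρ (n, x) = σ (n, x) := by
      intro n x hn
      by_contra hc
      have := hq (n, x) hc
      simp only at this
      omega
    rw [energy_eq s t J σ ρ (-q) q hb]
    have := h2 (-q) q ρ hρ hb hne
    linarith

theorem const_of_conn (s t : I → V) (h : Connected s t) (f : V → ℝ)
    (hf : ∀ i, f (s i) = f (t i)) (x y : V) : f x = f y := by
  have h1 := h x y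
  induction h1 with
  | rel a b hab =>
    obtain ⟨i, rfl, rfl⟩ := hab
    exact hf i
  | refl a => rfl
  | symm a b _ ih => exact ih.symm
  | trans a b c _ _ ih1 ih2 => exact ih1.trans ih2

/-- **Theorem.** Let `G` be a finite connected multigraph and let `μ` be a symmetric probability
measure on `ℝ` without atoms. For almost every realisation of i.i.d. couplings of law `μ` on the bonds
of `ℤ × G` there is exactly one pair `σ, -σ` of ground states. -/
theorem result (V I : Type) [Fintype V] [Nonempty V] [Fintype I] (s t : I → V)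
    (hG : Connected s t) (μ : Measure ℝ) [IsProbabilityMeasure μ]
    (hatom : ∀ x : ℝ, μ {x} = 0) (hsym : μ.map (fun x => -x) = μ) :
    ∀ᵐ J ∂(Measure.infinitePi fun _ : ℤ × (V ⊕ I) => μ),
      ∃ σ : ℤ × V → ℝ, {ρ | IsGroundState s t J ρ} = {σ, -σ} := by
  have hmain := Pool.Agent.TH761.EA.main (V := V) (I := I) (s := s) (t := t) μ hatom hsym
    (const_of_conn s t hG)
  filter_upwards [hmain] with J hJ
  obtain ⟨σ, hσ, hu⟩ := hJ
  refine ⟨σ, ?_⟩
  ext ρ
  simp only [Set.mem_setOf_eq, Set.mem_insert_iff, Set.mem_singleton_iff]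
  rw [ground_iff]
  constructor
  · exact hu ρ
  · rintro (h | h)
    · rw [h]; exact hσ
    · rw [h]
      refine ⟨fun v => ?_, fun p q τ hτ hb hne => ?_⟩
      · rcases hσ.1 v with h1 | h1 <;> simp [h1]
      · have e1 : ∀ f : ℤ × V → ℝ, Pool.Agent.TH761.EA.S s t J (-f) p q =
            Pool.Agent.TH761.EA.S s t J f p q := by
          intro f
          have := Pool.Agent.TH761.EA.S_smul (s := s) (t := t) (J := J) f (a := -1)
            (Or.inr rfl) p q
          rw [← this]
          congr 1
          funext v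
          simp
        have h1 := hσ.2 p q (-τ) (fun v => by rcases hτ v with h1 | h1 <;> simp [h1])
          (fun n x hn => by
            have := hb n x hn
            simp only [Pi.neg_apply] at this ⊢
            rw [this, neg_neg]) (fun h2 => hne (by rw [← h2, neg_neg]))
        rw [e1] at h1
        rw [e1]
        exact h1

end Pool.Agent.Results.MP_37ff18_mp.Cylinders
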