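import Pool.Agent.Y661.NU.Res
import Pool.Agent.Y689.NU.FOR
import Pool.Agent.Y312.NU.PER
import Pool.Agent.Y467.NU.LAW
import Pool.Agent.Y430.NU.SEP
import Pool.Agent.Y430.NU.POW
import Pool.Agent.Y805.NU.SAT
import Pool.Agent.Y274.NU.LLN

/-!
# Edwards-Anderson ground states on `ℤ²`: near uniqueness for widely spread couplings

For iid couplings on the edges of `ℤ²` whose law is spread over many scales, any two infinite
volume ground states, however they depend on the couplings, satisfy the same bonds up to an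
arbitrarily small fraction.
-/

set_option autoImplicit false

open MeasureTheory Filter

namespace Pool.Agent.Results.MP_37ff18_mp.NearUniquenessPlane

/-- The bond `(v, i)` joins the sites `v` and `v + e_i` of `ℤ²`. -/
abbrev Bond : Type := (Fin 2 → ℤ) × Fin 2

/-- `σ` is an infinite-volume ground state for the couplings `J`: every change at finitely many
sites (at least one) increases the energy `-∑ J_e σ σ` (the sum of the differences over all bonds
is a finite sum). -/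
def IsGroundState (J : Bond → ℝ) (σ : (Fin 2 → ℤ) → ℝ) : Prop :=
  (∀ x, σ x = 1 ∨ σ x = -1) ∧
  ∀ ρ : (Fin 2 → ℤ) → ℝ, (∀ x, ρ x = 1 ∨ ρ x = -1) → {x | ρ x ≠ σ x}.Finite → ρ ≠ σ →
    0 < ∑ᶠ e : Bond, J e * (σ e.1 * σ (e.1 + (Pi.single e.2 (1 : ℤ) : Fin 2 → ℤ))
      - ρ e.1 * ρ (e.1 + (Pi.single e.2 (1 : ℤ) : Fin 2 → ℤ)))

/-- The bonds `(v, i)` with `|v| ≤ n` (maximum norm) on which `σ` and `τ` disagree, that is, which
are satisfied in one of them and not in the other. -/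
def disagree (σ τ : (Fin 2 → ℤ) → ℝ) (n : ℕ) : Set Bond :=
  {e | (∀ i, |e.1 i| ≤ n) ∧ σ e.1 * σ (e.1 + (Pi.single e.2 (1 : ℤ) : Fin 2 → ℤ)) ≠
    τ e.1 * τ (e.1 + (Pi.single e.2 (1 : ℤ) : Fin 2 → ℤ))}

/-- Let `ε > 0`.

(1) There are `K, δ > 0` such that, for every atomless law `μ` on `ℝ` for which the absolute values
of two independent couplings are within a factor `K` of each other with probability at most `δ`,
almost surely for all large `n` any two ground states disagree on at most a fraction `ε` of the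
bonds of the box of radius `n`.

(2) Let `μ` be any atomless law on `ℝ`. For all large `t` the same holds for the couplings
`sign(J) |J|^t` with `J` iid of law `μ`. -/
theorem result (ε : ℝ) (hε : 0 < ε) :
    (∃ K δ : ℝ, 0 < K ∧ 0 < δ ∧
      ∀ (μ : Measure ℝ) [IsProbabilityMeasure μ], (∀ x, μ {x} = 0) →
      (μ.prod μ).real {p : ℝ × ℝ | |p.1| ≤ K * |p.2| ∧ |p.2| ≤ K * |p.1|} ≤ δ →
      ∀ᵐ J ∂(Measure.infinitePi fun _ : Bond => μ), ∃ n₀ : ℕ, ∀ n : ℕ, n₀ ≤ n →
        ∀ σ τ : (Fin 2 → ℤ) → ℝ, IsGroundState J σ → IsGroundState J τ →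
          ((disagree σ τ n).ncard : ℝ) ≤ ε * (2 * (2 * (n : ℝ) + 1) ^ 2)) ∧
    ∀ (μ : Measure ℝ) [IsProbabilityMeasure μ], (∀ x, μ {x} = 0) → ∃ t₀ : ℝ, 0 < t₀ ∧
      ∀ t : ℝ, t₀ ≤ t →
      ∀ᵐ J ∂(Measure.infinitePi fun _ : Bond => μ), ∃ n₀ : ℕ, ∀ n : ℕ, n₀ ≤ n →
        ∀ σ τ : (Fin 2 → ℤ) → ℝ, IsGroundState (fun e => Real.sign (J e) * |J e| ^ t) σ →
          IsGroundState (fun e => Real.sign (J e) * |J e| ^ t) τ →
          ((disagree σ τ n).ncard : ℝ) ≤ ε * (2 * (2 * (n : ℝ) + 1) ^ 2) :=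
  ⟨Pool.Agent.Y661.NU.Res.main Pool.Agent.Y689.NU.FOR.main Pool.Agent.Y312.NU.PER.main
    Pool.Agent.Y467.NU.LAW.law Pool.Agent.Y467.NU.LAW.med Pool.Agent.Y430.NU.SEP.main
    Pool.Agent.Y805.NU.SAT.main Pool.Agent.Y274.NU.LLN.main ε hε,
  fun μ _ hμ => Pool.Agent.Y661.NU.Res.main_pow Pool.Agent.Y689.NU.FOR.main
    Pool.Agent.Y312.NU.PER.main Pool.Agent.Y467.NU.LAW.law Pool.Agent.Y467.NU.LAW.med
    Pool.Agent.Y430.NU.SEP.main Pool.Agent.Y805.NU.SAT.main Pool.Agent.Y274.NU.LLN.main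
    Pool.Agent.Y430.NU.POW.main ε hε μ hμ⟩

end Pool.Agent.Results.MP_37ff18_mp.NearUniquenessPlane
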